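/-
helper2: module MODRF of MP_b95bd9_al: finitely generated modules over finitely generated
commutative rings are residually finite.
-/
import Pool.Agent.H10.PB.Targets

set_option autoImplicit false

namespace Pool.Agent.H2.PB

theorem isJacobsonRing_int : IsJacobsonRing ℤ := by
  rw [isJacobsonRing_iff_prime_eq]
  intro P hP
  by_cases h : P = ⊥
  · subst h
    rw [eq_bot_iff]
    intro x hx
    rw [Ideal.mem_jacobson_bot] at hx
    have h1 := hx (3 * x)
    rw [Int.isUnit_iff] at h1
    have h2 : x * x ≥ 0 := mul_self_nonneg x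
    rw [Ideal.mem_bot]
    rcases h1 with h1 | h1
    · have h3 : x * x = 0 := by linarith
      exact mul_self_eq_zero.mp h3
    · nlinarith
  · have hmax : P.IsMaximal := Ring.DimensionLEOne.maximalOfPrime h hP
    exact Ideal.jacobson_eq_self_of_isMaximal

/-- A field which is a finitely generated ring is finite. -/
theorem finite_of_field_finiteType_int (K : Type) [Field K] [Algebra.FiniteType ℤ K] :
    Finite K := by
  have := isJacobsonRing_int
  have hfin : Module.Finite ℤ K := finite_of_finite_type_of_isJacobsonRing ℤ K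
  -- characteristic is positive
  obtain ⟨p, hp⟩ := CharP.exists K
  rcases Nat.eq_zero_or_pos p with h0 | hpos
  · exfalso
    subst h0
    have : CharZero K := CharP.charP_to_charZero K
    have hint : Algebra.IsIntegral ℤ K := inferInstance
    have hinj : Function.Injective (algebraMap ℤ K) := by
      have := (Int.cast_injective : Function.Injective ((↑) : ℤ → K))
      simpa using this
    have hf := isField_of_isIntegral_of_isField (R := ℤ) (S := K) hinj (Field.toIsField K)
    exact Int.not_isField hf
  · have : NeZero p := ⟨hpos.ne'⟩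
    -- `K` is a finitely generated abelian group killed by `p`
    have hfg : AddGroup.FG K := by
      rw [← Module.Finite.iff_addGroup_fg]; exact hfin
    have htors : Module.IsTorsion ℤ K := by
      intro x
      refine ⟨⟨(p : ℤ), mem_nonZeroDivisors_of_ne_zero (by exact_mod_cast hpos.ne')⟩, ?_⟩
      show (p : ℤ) • x = 0
      rw [zsmul_eq_mul]
      have : ((p : ℤ) : K) = 0 := by
        rw [Int.cast_natCast]; exact CharP.cast_eq_zero K p
      rw [this, zero_mul]
    exact Module.finite_of_fg_torsion K htors

theorem t_MODRF : Pool.Agent.H10.PB.T_MODRF := by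
  intro A M _ _ _ _ _ m hm
  have hA : IsNoetherianRing A := Algebra.FiniteType.isNoetherianRing ℤ A
  set I : Ideal A := LinearMap.ker (LinearMap.toSpanSingleton A M m) with hI
  have hI1 : I ≠ ⊤ := by
    intro h
    apply hm
    have h1 : (1 : A) ∈ I := by rw [h]; trivial
    rw [hI, LinearMap.mem_ker, LinearMap.toSpanSingleton_apply, one_smul] at h1
    exact h1
  obtain ⟨P, hP, hIP⟩ := Ideal.exists_le_maximal I hI1
  have h1 : m ∉ (⨅ i : ℕ, P ^ i • ⊤ : Submodule A M) := by
    intro h
    rw [Ideal.mem_iInf_smul_pow_eq_bot_iff] at h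
    obtain ⟨r, hr⟩ := h
    have h2 : (1 - (r : A)) ∈ I := by
      rw [hI, LinearMap.mem_ker, LinearMap.toSpanSingleton_apply, sub_smul, one_smul, hr, sub_self]
    have h3 : (1 : A) ∈ P := by
      have := P.add_mem (hIP h2) r.2
      simpa using this
    exact hP.ne_top ((Ideal.eq_top_iff_one P).mpr h3)
  rw [Submodule.mem_iInf] at h1
  push Not at h1
  obtain ⟨k, hk⟩ := h1
  refine ⟨P ^ k • ⊤, hk, ?_⟩
  have hft : Algebra.FiniteType ℤ (A ⧸ P) :=
    Algebra.FiniteType.of_surjective (Ideal.Quotient.mkₐ ℤ P) (Ideal.Quotient.mkₐ_surjective ℤ P)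
  have hfP : Finite (A ⧸ P) := by
    let fld : Field (A ⧸ P) := Ideal.Quotient.field P
    exact @finite_of_field_finiteType_int (A ⧸ P) fld hft
  have hfk : Finite (A ⧸ P ^ k) := Ideal.finite_quotient_pow (IsNoetherian.noetherian P) k
  have hfM : Module.Finite (A ⧸ P ^ k) (M ⧸ (P ^ k • ⊤ : Submodule A M)) :=
    Module.Finite.of_restrictScalars_finite A (A ⧸ P ^ k) _
  exact Module.finite_of_finite (A ⧸ P ^ k)

end Pool.Agent.H2.PB
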