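/-
helper2: module FAB of MP_b95bd9_al: finitely generated groups with finite commutator subgroup
are residually finite.
-/
import Pool.Agent.H2.PB.ModRF

set_option autoImplicit false

namespace Pool.Agent.H2.PB

theorem rf_of_comm (Z : Type) [CommGroup Z] [Group.FG Z] (z : Z) (hz : z ≠ 1) :
    ∃ K : Subgroup Z, K.FiniteIndex ∧ z ∉ K := by
  have hfin : Module.Finite ℤ (Additive Z) := by
    rw [Module.Finite.iff_addGroup_fg]
    infer_instance
  obtain ⟨M', hm, hf⟩ := t_MODRF ℤ (Additive Z) (Additive.ofMul z) (by simpa using hz)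
  refine ⟨AddSubgroup.toSubgroup' M'.toAddSubgroup, ?_, ?_⟩
  · have h1 : M'.toAddSubgroup.FiniteIndex := by
      have : Finite (Additive Z ⧸ M'.toAddSubgroup) := hf
      exact AddSubgroup.finiteIndex_of_finite_quotient
    refine ⟨?_⟩
    have := h1.index_ne_zero
    exact this
  · intro h
    exact hm h

theorem rf_of_comm' (Z : Type) [hG : Group Z] [hf : Group.FG Z] (hc : ∀ a b : Z, a * b = b * a)
    (z : Z) (hz : z ≠ 1) : ∃ K : Subgroup Z, K.FiniteIndex ∧ z ∉ K :=
  @rf_of_comm Z { hG with mul_comm := hc } hf z hz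

theorem t_FAB : Pool.Agent.H10.PB.T_FAB := by
  intro Γ _ hfg hfin
  have hc : Finite (commutatorSet Γ) := by
    have h1 : commutatorSet Γ ⊆ (commutator Γ : Set Γ) := by
      rw [commutator_eq_closure]
      exact Subgroup.subset_closure
    exact Set.Finite.subset (Set.toFinite (commutator Γ : Set Γ)) h1
  have hZ : (Subgroup.center Γ).FiniteIndex := inferInstance
  have hZfg : Group.FG (Subgroup.center Γ) := inferInstance
  rw [Group.residuallyFinite_iff_exists_finiteIndex]
  intro g hg
  by_cases hgZ : g ∈ Subgroup.center Γ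
  · obtain ⟨K, hK, hgK⟩ := rf_of_comm' (Subgroup.center Γ)
      (fun a b => Subtype.ext (Subgroup.mem_center_iff.mp b.2 a)) ⟨g, hgZ⟩ (by
      intro h; exact hg (congrArg Subtype.val h))
    refine ⟨K.map (Subgroup.center Γ).subtype, ?_, ?_⟩
    · refine ⟨?_⟩
      rw [Subgroup.index_map_subtype]
      exact mul_ne_zero hK.index_ne_zero hZ.index_ne_zero
    · rintro ⟨x, hx, hxg⟩
      apply hgK
      have : x = ⟨g, hgZ⟩ := Subtype.ext hxg
      rw [← this]
      exact hx
  · exact ⟨_, hZ, hgZ⟩

end Pool.Agent.H2.PB
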