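/-
helper2: module HALL of MP_b95bd9_al: finitely generated metabelian groups are residually finite
(P. Hall).
-/
import Pool.Agent.H2.PB.Fab

set_option autoImplicit false

namespace Pool.Agent.H2.PB

open Pool.Agent.H10.PB
open scoped commutatorElement

section
variable {Γ M : Type} [Group Γ] [CommGroup M] (i : M →* Γ) (α : Γ →* MulAut M)

/-- the action of `Γ` on `Additive M` -/
def phi : Γ →* Module.End ℤ (Additive M) where
  toFun g := (MonoidHom.toAdditive (α g).toMonoidHom).toIntLinearMap
  map_one' := by
    ext x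
    simp
  map_mul' g h := by
    ext x
    simp

theorem phi_apply (g : Γ) (m : M) : phi α g (Additive.ofMul m) = Additive.ofMul (α g m) := rfl

variable (hr : i.range = commutator Γ) (hi : Function.Injective i)
  (hα : ∀ g m, i (α g m) = g * i m * g⁻¹)

include hr hi hα in
theorem comm_le_ker : commutator Γ ≤ (phi α).ker := by
  intro g hg
  rw [← hr] at hg
  obtain ⟨x, rfl⟩ := hg
  rw [MonoidHom.mem_ker]
  ext m
  show phi α (i x) (Additive.ofMul (Additive.toMul m)) = m
  rw [phi_apply]
  have : α (i x) (Additive.toMul m) = Additive.toMul m := by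
    apply hi
    rw [hα, ← map_mul, ← map_inv, ← map_mul, mul_comm x, mul_inv_cancel_right]
  rw [this]
  rfl

/-- the action of the group ring of the abelianization -/
noncomputable def actG : Abelianization Γ →* Module.End ℤ (Additive M) :=
    QuotientGroup.lift (commutator Γ) (phi α) (comm_le_ker i α hr hi hα)

/-- the action of the group ring of the abelianization -/
noncomputable def act : MonoidAlgebra ℤ (Abelianization Γ) →ₐ[ℤ] Module.End ℤ (Additive M) :=
  MonoidAlgebra.lift ℤ (Module.End ℤ (Additive M)) (Abelianization Γ) (actG i α hr hi hα)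

theorem act_of (g : Γ) (m : M) :
    act i α hr hi hα (MonoidAlgebra.of ℤ (Abelianization Γ) (Abelianization.of g))
      (Additive.ofMul m) = Additive.ofMul (α g m) := by
  unfold act
  rw [MonoidAlgebra.lift_of]
  rfl

end

theorem commutator_le_of_gen {Γ : Type} [Group Γ] (S : Set Γ) (hS : Subgroup.closure S = ⊤)
    (N : Subgroup Γ) [N.Normal] (h : ∀ s ∈ S, ∀ t ∈ S, ⁅s, t⁆ ∈ N) : commutator Γ ≤ N := by
  have hπ : ∀ s ∈ S, ∀ t ∈ S, (QuotientGroup.mk' N s) * (QuotientGroup.mk' N t) =
      (QuotientGroup.mk' N t) * (QuotientGroup.mk' N s) := by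
    intro s hs t ht
    have h1 : QuotientGroup.mk' N ⁅s, t⁆ = 1 := (QuotientGroup.eq_one_iff _).mpr (h s hs t ht)
    rw [map_commutatorElement, commutatorElement_eq_one_iff_mul_comm] at h1
    exact h1
  set S' : Set (Γ ⧸ N) := QuotientGroup.mk' N '' S with hS'
  have hcl : Subgroup.closure S' = ⊤ := by
    rw [hS', ← MonoidHom.map_closure, hS, ← MonoidHom.range_eq_map,
      MonoidHom.range_eq_top.mpr (QuotientGroup.mk'_surjective N)]
  have h1 : S' ⊆ (Subgroup.centralizer S' : Set (Γ ⧸ N)) := by
    rintro _ ⟨s, hs, rfl⟩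
    rw [SetLike.mem_coe, Subgroup.mem_centralizer_iff]
    rintro _ ⟨t, ht, rfl⟩
    exact hπ t ht s hs
  have h2 : Subgroup.centralizer S' = ⊤ := by
    rw [eq_top_iff, ← hcl, Subgroup.closure_le]
    exact h1
  have h3 : ∀ x y : Γ ⧸ N, x * y = y * x := by
    intro x y
    have h4 : S' ⊆ (Subgroup.centralizer {x} : Set (Γ ⧸ N)) := by
      intro s hs
      rw [SetLike.mem_coe, Subgroup.mem_centralizer_iff]
      intro z hz
      rw [Set.mem_singleton_iff] at hz
      subst hz
      have : z ∈ Subgroup.centralizer S' := by rw [h2]; trivial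
      exact (Subgroup.mem_centralizer_iff.mp this s hs).symm
    have h5 : y ∈ Subgroup.centralizer {x} := by
      have : Subgroup.closure S' ≤ Subgroup.centralizer {x} := by
        rw [Subgroup.closure_le]; exact h4
      rw [hcl] at this
      exact this trivial
    exact Subgroup.mem_centralizer_iff.mp h5 x rfl
  rw [commutator_def, Subgroup.commutator_le]
  intro g _ h _
  rw [← QuotientGroup.eq_one_iff]
  show QuotientGroup.mk' N ⁅g, h⁆ = 1
  rw [map_commutatorElement, commutatorElement_eq_one_iff_mul_comm]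
  exact h3 _ _

theorem ft_int (A : Type) [CommRing A] (inst : Algebra ℤ A)
    (h : @Algebra.FiniteType ℤ A _ _ inst) :
    @Algebra.FiniteType ℤ A _ _ (Ring.toIntAlgebra A) := by
  have h1 : inst = Ring.toIntAlgebra A := Subsingleton.elim _ _
  rw [← h1]
  exact h

theorem hall_aux (hMR : T_MODRF) (hF : T_FAB) (Γ M : Type) [Group Γ] [CommGroup M]
    (hfg : Group.FG Γ) (i : M →* Γ) (α : Γ →* MulAut M)
    (hr : i.range = commutator Γ) (hi : Function.Injective i)
    (hα : ∀ g m, i (α g m) = g * i m * g⁻¹) (m : M) (hm : m ≠ 1) :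
    ∃ H : Subgroup Γ, H.FiniteIndex ∧ i m ∉ H := by
  classical
  let modA : Module (MonoidAlgebra ℤ (Abelianization Γ)) (Additive M) :=
    Module.compHom (Additive M) (act i α hr hi hα).toRingHom
  have hact : ∀ (g : Γ) (x : Additive M),
      (MonoidAlgebra.of ℤ (Abelianization Γ) (Abelianization.of g)) • x =
      Additive.ofMul (α g (Additive.toMul x)) := fun g x => act_of i α hr hi hα g (Additive.toMul x)
  -- submodules give normal subgroups
  have hnorm : ∀ W : Submodule (MonoidAlgebra ℤ (Abelianization Γ)) (Additive M),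
      ((AddSubgroup.toSubgroup' W.toAddSubgroup).map i).Normal := by
    intro W
    refine ⟨?_⟩
    rintro _ ⟨x, hx, rfl⟩ g
    refine ⟨α g x, ?_, hα g x⟩
    have h1 := W.smul_mem (MonoidAlgebra.of ℤ (Abelianization Γ) (Abelianization.of g)) hx
    rw [hact] at h1
    exact h1
  have hfin : Module.Finite (MonoidAlgebra ℤ (Abelianization Γ)) (Additive M) := by
    obtain ⟨S, hS⟩ := Group.fg_def.mp hfg
    set T : Set (Additive M) :=
      {x | ∃ s ∈ S, ∃ t ∈ S, i (Additive.toMul x) = ⁅s, t⁆} with hT
    have hTf : T.Finite := by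
      have h1 : (Set.image2 (fun s t : Γ => ⁅s, t⁆) (S : Set Γ) (S : Set Γ)).Finite :=
        Set.Finite.image2 _ S.finite_toSet S.finite_toSet
      have hinj : Function.Injective (fun x : Additive M => i (Additive.toMul x)) := by
        intro x y hxy
        exact hi hxy
      refine Set.Finite.subset (Set.Finite.preimage hinj.injOn h1) ?_
      rintro x ⟨s, hs, t, ht, hx⟩
      exact ⟨s, hs, t, ht, hx.symm⟩
    refine ⟨⟨hTf.toFinset, ?_⟩⟩
    rw [Set.Finite.coe_toFinset]
    set W := Submodule.span (MonoidAlgebra ℤ (Abelianization Γ)) T with hW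
    have hN := hnorm W
    have h2 : commutator Γ ≤ (AddSubgroup.toSubgroup' W.toAddSubgroup).map i := by
      refine commutator_le_of_gen (S : Set Γ) hS _ ?_
      intro s hs t ht
      have h3 : ⁅s, t⁆ ∈ i.range := by
        rw [hr, commutator_def]
        exact Subgroup.commutator_mem_commutator (Subgroup.mem_top _) (Subgroup.mem_top _)
      obtain ⟨x, hx⟩ := h3
      have h5 : (Additive.ofMul x) ∈ W := Submodule.subset_span ⟨s, hs, t, ht, hx⟩
      exact ⟨x, h5, hx⟩
    rw [eq_top_iff]
    intro x _
    have h4 : i (Additive.toMul x) ∈ commutator Γ := by rw [← hr]; exact ⟨_, rfl⟩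
    obtain ⟨y, hy, hyx⟩ := h2 h4
    have h6 : y = Additive.toMul x := hi hyx
    have h7 : Additive.ofMul y ∈ W := hy
    rw [h6] at h7
    exact h7
  have hft : Algebra.FiniteType ℤ (MonoidAlgebra ℤ (Abelianization Γ)) := by
    have h1 : Group.FG (Abelianization Γ) :=
      Group.fg_of_surjective (f := Abelianization.of) (QuotientGroup.mk'_surjective _)
    have h2 : Monoid.FG (Abelianization Γ) := inferInstance
    infer_instance
  have hft' : @Algebra.FiniteType ℤ (MonoidAlgebra ℤ (Abelianization Γ)) _ _
      (Ring.toIntAlgebra _) := ft_int _ _ hft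
  obtain ⟨M', hm', hM'⟩ := @hMR (MonoidAlgebra ℤ (Abelianization Γ)) (Additive M) _ hft' _ _ _
    (Additive.ofMul m) (by simpa using hm)
  set N := (AddSubgroup.toSubgroup' M'.toAddSubgroup).map i with hN
  have hNn : N.Normal := hnorm M'
  have hcf : Finite (commutator (Γ ⧸ N)) := by
    have h1 : (AddSubgroup.toSubgroup' M'.toAddSubgroup).FiniteIndex := by
      have h2 : M'.toAddSubgroup.FiniteIndex := by
        have h3 : Finite (Additive M ⧸ M'.toAddSubgroup) := hM'
        exact AddSubgroup.finiteIndex_of_finite_quotient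
      exact ⟨h2.index_ne_zero⟩
    have h4 : ((QuotientGroup.mk' N).comp i).ker.index ≠ 0 := by
      have h5 : AddSubgroup.toSubgroup' M'.toAddSubgroup ≤ ((QuotientGroup.mk' N).comp i).ker := by
        intro x hx
        rw [MonoidHom.mem_ker, MonoidHom.comp_apply, QuotientGroup.mk'_apply,
          QuotientGroup.eq_one_iff]
        exact ⟨x, hx, rfl⟩
      exact (Subgroup.finiteIndex_of_le h5).index_ne_zero
    rw [Subgroup.index_ker] at h4
    have h6 : ((QuotientGroup.mk' N).comp i).range = commutator (Γ ⧸ N) := by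
      rw [MonoidHom.range_comp, hr, commutator_def, Subgroup.map_commutator,
        ← MonoidHom.range_eq_map, MonoidHom.range_eq_top.mpr (QuotientGroup.mk'_surjective N),
        commutator_def]
    rw [h6] at h4
    exact Nat.finite_of_card_ne_zero h4
  have hfgq : Group.FG (Γ ⧸ N) := inferInstance
  have hRF := hF (Γ ⧸ N) hfgq hcf
  rw [Group.residuallyFinite_iff_exists_finiteIndex] at hRF
  obtain ⟨K, hK, hmK⟩ := hRF (QuotientGroup.mk' N (i m)) (by
    intro h
    rw [QuotientGroup.mk'_apply, QuotientGroup.eq_one_iff] at h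
    obtain ⟨x, hx, hxm⟩ := h
    exact hm' (by rw [← hi hxm]; exact hx))
  refine ⟨K.comap (QuotientGroup.mk' N), ?_, hmK⟩
  refine ⟨?_⟩
  rw [Subgroup.index_comap_of_surjective K (QuotientGroup.mk'_surjective N)]
  exact hK.index_ne_zero

theorem t_HALL (hMR : T_MODRF) (hF : T_FAB) : T_HALL := by
  intro Γ hG hfg hder
  have hab : ∀ a b : commutator Γ, a * b = b * a := by
    intro a b
    have h1 : ⁅(a : Γ), (b : Γ)⁆ ∈ derivedSeries Γ 2 := by
      rw [derivedSeries_succ, derivedSeries_one]
      exact Subgroup.commutator_mem_commutator a.2 b.2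
    rw [hder, Subgroup.mem_bot, commutatorElement_eq_one_iff_mul_comm] at h1
    exact Subtype.ext h1
  let cg : CommGroup (commutator Γ) :=
    { (inferInstance : Group (commutator Γ)) with mul_comm := hab }
  rw [Group.residuallyFinite_iff_exists_finiteIndex]
  intro g hg
  by_cases hgM : g ∈ commutator Γ
  · obtain ⟨H, hH, hgH⟩ := hall_aux hMR hF Γ (commutator Γ) hfg (commutator Γ).subtype
      MulAut.conjNormal (Subgroup.range_subtype _) (Subgroup.subtype_injective _)
      (fun g m => MulAut.conjNormal_apply g m) ⟨g, hgM⟩ (by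
        intro h
        exact hg (congrArg Subtype.val h))
    exact ⟨H, hH, hgH⟩
  · have hfg2 : Group.FG (Abelianization Γ) :=
      Group.fg_of_surjective (f := Abelianization.of) (QuotientGroup.mk'_surjective _)
    obtain ⟨K, hK, hgK⟩ := rf_of_comm (Abelianization Γ) (Abelianization.of g) (by
      intro h
      have h1 : g ∈ (Abelianization.of (G := Γ)).ker := h
      rw [Abelianization.ker_of] at h1
      exact hgM h1)
    refine ⟨K.comap Abelianization.of, ?_, hgK⟩
    refine ⟨?_⟩
    have hs : Function.Surjective (Abelianization.of (G := Γ)) :=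
      QuotientGroup.mk'_surjective _
    rw [Subgroup.index_comap_of_surjective K hs]
    exact hK.index_ne_zero

theorem hall (Γ : Type) [Group Γ] (hfg : Group.FG Γ) (h : derivedSeries Γ 2 = ⊥) :
    Group.ResiduallyFinite Γ := t_HALL t_MODRF t_FAB Γ hfg h

end Pool.Agent.H2.PB
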